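import Pool.Agent.CX.Final
import Pool.Agent.CX.Examples

set_option autoImplicit false

noncomputable section

namespace Pool.Agent.Results.MP_95030e_al.Combination

open Pool.Agent.VN Pool.Agent.CX

/-- Let `k` be a subring of `ℂ` and let `G` act by automorphisms and without inversions on a tree
such that the stabilisers `G_v` of all vertices `v` satisfy the Atiyah conjecture over `k` and their
actions on the sets of the neighbours of `v` are nice (with the parameter `k = ℂ`). Then `G`
satisfies the Atiyah conjecture over `k`.

All actions of the groups of the class `HierA` are nice (`Pool.Agent.CX.Nice.of_hierA`): the groups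
in this class which satisfy the conjecture are closed under amalgamated products, HNN extensions and
graphs of groups with arbitrary edge groups. The class contains the amenable groups and the groups
built from them by graphs of groups, amenable extensions, finite extensions, directed unions and the
local step (`Pool.Agent.CW.HierA`). See `Pool.Agent.CX.Examples` for other examples of nice
actions. -/
theorem result (k : Subring ℂ) (G V : Type) [Group G] [MulAction G V] (T : SimpleGraph V)
    (hT : T.IsTree) (hadj : ∀ (g : G) (u v : V), T.Adj u v → T.Adj (g • u) (g • v))
    (hinv : ∀ (g : G) (u v : V), T.Adj u v → ¬ (g • u = v ∧ g • v = u))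
    (hA : ∀ v : V, AtiyahOver k (MulAction.stabilizer G v))
    (hN : ∀ v : V, @Nice (k = ⊤) (MulAction.stabilizer G v) _ {w : V // T.Adj v w}
      (nbAct T hadj v)) : AtiyahOver k G :=
  combination k G V T hT hadj hinv hA hN

end Pool.Agent.Results.MP_95030e_al.Combination
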