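import Pool.Agent.Lvl.Final

set_option autoImplicit false

noncomputable section

namespace Pool.Agent.Results.MP_95030e_al.LevelSubgroups

open Pool.Agent.VN Pool.Agent.Lvl

/-- Let `H` be the fundamental group of a connected orientable surface of finite type
(`SurfH H`: a free group of finite rank or the fundamental group of a closed orientable surface) and
let `m ≥ 3`. The level `m` subgroups of `Aut(H)` and of `Out(H)` (the automorphisms and the outer
automorphisms which act trivially on `H₁(H; ℤ/m)`) satisfy the strong Atiyah conjecture over `ℂ`:
they include the level `m` mapping class groups of all these surfaces. For every group `G`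
of outer automorphisms of `H`, the von Neumann dimensions of the kernels of all matrices over the
complex group ring of `G` lie in `(1/d) ℤ`, where `d` is the (finite) index of the subgroup of the
elements of level `m`. -/
theorem result (H : Type) [Group H] (hH : SurfH H) (m : ℕ) (hm : 3 ≤ m) :
    AtiyahOver ⊤ (level H m) ∧ AtiyahOver ⊤ (outLevel H m) ∧
    ∀ (G : Type) [Group G] (f : G →* Out H), Function.Injective f →
      ((outLevel H m).comap f).FiniteIndex ∧
      ∀ (r n : ℕ) (A : Matrix (Fin r) (Fin n) (G →₀ ℂ)),
        ∃ z : ℤ, (((outLevel H m).comap f).index : ℝ) * kerDim A = z :=
  levels hH hm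

end Pool.Agent.Results.MP_95030e_al.LevelSubgroups
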